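import Pool.Agent.helper36.BP.SpecE

set_option autoImplicit false

/-!
# Row bp:RWB (MP_ad8ced_nt): the exponential sum over a row
-/

open Finset
open Pool.Agent.FI Pool.Agent.HK
open Pool.Agent.CH (nit rgh ll2)
open Pool.Agent.SK (tr0 Th)

noncomputable section

namespace Pool.Agent.BP

theorem RWB_nrm (t x : ℝ) : ‖nit t x‖ = 1 := by
  unfold nit
  rw [Complex.norm_exp]
  simp

theorem RWB_mul (t : ℝ) {a x : ℝ} (ha : 0 < a) (hx : 0 < x) : nit t (a * x) = nit t a * nit t x := by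
  unfold nit
  rw [Real.log_mul ha.ne' hx.ne', ← Complex.exp_add]
  congr 1
  push_cast
  ring

/-- a set of integers of one residue class which is convex in this class -/
theorem RWB_sum (T : Finset ℤ) (D : ℕ) (r : ℤ) (hD : 1 ≤ D) (hT : T.Nonempty)
    (hr : ∀ m ∈ T, m % (D : ℤ) = r)
    (hc : ∀ a ∈ T, ∀ b ∈ T, ∀ m : ℤ, a ≤ m → m ≤ b → m % (D : ℤ) = r → m ∈ T) (f : ℤ → ℂ) :
    ∃ a b : ℤ, ∑ m ∈ T, f m = ∑ x ∈ Ioc a b, f (D * x + r) ∧ ∀ x ∈ Ioc a b, (D : ℤ) * x + r ∈ T := by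
  have hD0 : (0 : ℤ) < D := by exact_mod_cast hD
  obtain ⟨m₀, hm₀⟩ := hT
  have hr0 : 0 ≤ r := by rw [← hr m₀ hm₀]; exact Int.emod_nonneg _ hD0.ne'
  have hrD : r < D := by rw [← hr m₀ hm₀]; exact Int.emod_lt_of_pos _ hD0
  have hrep : ∀ m ∈ T, (D : ℤ) * (m / D) + r = m := by
    intro m hm
    have h1 := Int.mul_ediv_add_emod m D
    rw [hr m hm] at h1
    exact h1
  have hdiv : ∀ x : ℤ, ((D : ℤ) * x + r) / D = x := by
    intro x
    rw [add_comm, Int.add_mul_ediv_left _ _ hD0.ne', Int.ediv_eq_zero_of_lt hr0 hrD, zero_add]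
  have hmod : ∀ x : ℤ, ((D : ℤ) * x + r) % D = r := by
    intro x
    rw [add_comm, Int.add_mul_emod_self_left, Int.emod_eq_of_lt hr0 hrD]
  set M : Finset ℤ := T.image (fun m => m / (D : ℤ)) with hM
  have hMn : M.Nonempty := ⟨m₀ / D, Finset.mem_image_of_mem _ hm₀⟩
  have hmem : ∀ x ∈ M, (D : ℤ) * x + r ∈ T := by
    intro x hx
    obtain ⟨m, hm, rfl⟩ := Finset.mem_image.1 hx
    show (D : ℤ) * (m / D) + r ∈ T
    rw [hrep m hm]
    exact hm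
  have hall : ∀ x ∈ Ioc (M.min' hMn - 1) (M.max' hMn), (D : ℤ) * x + r ∈ T := by
    intro x hx
    obtain ⟨h1, h2⟩ := Finset.mem_Ioc.1 hx
    have h1' : M.min' hMn ≤ x := by omega
    refine hc _ (hmem _ (M.min'_mem hMn)) _ (hmem _ (M.max'_mem hMn)) _ ?_ ?_ (hmod x)
    · have := mul_le_mul_of_nonneg_left h1' hD0.le
      linarith
    · have := mul_le_mul_of_nonneg_left h2 hD0.le
      linarith
  refine ⟨M.min' hMn - 1, M.max' hMn, ?_, hall⟩
  refine Finset.sum_nbij' (fun m => m / (D : ℤ)) (fun x => (D : ℤ) * x + r) ?_ hall ?_ ?_ ?_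
  · intro m hm
    have hm' : m / (D : ℤ) ∈ M := Finset.mem_image_of_mem _ hm
    have h1 := M.min'_le _ hm'
    have h2 := M.le_max' _ hm'
    rw [Finset.mem_Ioc]
    omega
  · intro m hm
    exact hrep m hm
  · intro x _
    exact hdiv x
  · intro m hm
    show f m = f ((D : ℤ) * (m / D) + r)
    rw [hrep m hm]

/-- one piece -/
theorem RWB_piece {C₀ : ℕ}
    (hdy : ∀ (l N : ℕ) (α β P Q ρ : ℝ) (a b : ℤ), 1 ≤ l → 1 ≤ N → 0 < ρ → ρ ≤ 1 →
      √(N : ℝ) ≤ max |α| |β| → max |α| |β| ≤ (N : ℝ) ^ l → (∀ m ∈ Ioc a b, NDp l ρ N α β (m + P) (m + Q)) →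
      ‖∑ m ∈ Ioc a b, nit α |m + P| * nit β |m + Q|‖ ≤
        (N : ℝ) * (Real.exp (C₀ * (l : ℝ) ^ 3) * (N : ℝ) ^ (-(1 / (C₀ * (l : ℝ) ^ 6))) / ρ))
    (l N D : ℕ) (α β w ρ : ℝ) (χ : ℤ → ℂ) (T : Finset ℤ) (r : ℤ) (hl : 1 ≤ l) (hN : 1 ≤ N) (hD : 1 ≤ D)
    (hρ : 0 < ρ) (hρ1 : ρ ≤ 1) (h1 : √(N : ℝ) ≤ max |α| |β|) (h2 : max |α| |β| ≤ (N : ℝ) ^ l)
    (hχ : ∀ m, χ (m + D) = χ m) (hχ1 : ∀ m, ‖χ m‖ ≤ 1)
    (hr : ∀ m ∈ T, m % (D : ℤ) = r)
    (hc : ∀ a ∈ T, ∀ b ∈ T, ∀ m : ℤ, a ≤ m → m ≤ b → m % (D : ℤ) = r → m ∈ T)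
    (hnd : ∀ m ∈ T, NDp l ρ N α β (((m : ℝ) + w) / D) (((m : ℝ) - w) / D)) :
    ‖∑ m ∈ T, χ m * (nit α |(m : ℝ) + w| * nit β |(m : ℝ) - w|)‖ ≤
      (N : ℝ) * (Real.exp (C₀ * (l : ℝ) ^ 3) * (N : ℝ) ^ (-(1 / (C₀ * (l : ℝ) ^ 6))) / ρ) := by
  have hD0 : (0 : ℝ) < D := by exact_mod_cast hD
  have hN0 : (0 : ℝ) < N := by exact_mod_cast hN
  rcases T.eq_empty_or_nonempty with hT | hT
  · subst hT
    simp only [Finset.sum_empty, norm_zero]
    positivity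
  obtain ⟨a, b, hsum, hmem⟩ := RWB_sum T D r hD hT hr hc
    (fun m => χ m * (nit α |(m : ℝ) + w| * nit β |(m : ℝ) - w|))
  rw [hsum]
  have hper : ∀ x : ℤ, χ ((D : ℤ) * x + r) = χ r := by
    intro x
    have hp : Function.Periodic χ (D : ℤ) := hχ
    have := hp.int_mul x r
    rw [show (D : ℤ) * x + r = r + x * (D : ℤ) by ring]
    exact this
  have hnd' : ∀ x ∈ Ioc a b, NDp l ρ N α β ((x : ℝ) + (r + w) / D) ((x : ℝ) + (r - w) / D) := by
    intro x hx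
    have h3 := hnd _ (hmem x hx)
    have e1 : ((((D : ℤ) * x + r : ℤ) : ℝ) + w) / D = (x : ℝ) + (r + w) / D := by
      push_cast
      field_simp
      ring
    have e2 : ((((D : ℤ) * x + r : ℤ) : ℝ) - w) / D = (x : ℝ) + (r - w) / D := by
      push_cast
      field_simp
      ring
    rw [e1, e2] at h3
    exact h3
  have e : ∑ x ∈ Ioc a b, χ ((D : ℤ) * x + r) * (nit α |(((D : ℤ) * x + r : ℤ) : ℝ) + w| *
      nit β |(((D : ℤ) * x + r : ℤ) : ℝ) - w|) =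
      (χ r * (nit α D * nit β D)) * ∑ x ∈ Ioc a b, nit α |(x : ℝ) + (r + w) / D| *
        nit β |(x : ℝ) + (r - w) / D| := by
    rw [Finset.mul_sum]
    refine Finset.sum_congr rfl fun x hx => ?_
    obtain ⟨p1, _, q1, _, _⟩ := hnd' x hx
    have p0 : 0 < |(x : ℝ) + (r + w) / D| := lt_of_lt_of_le hN0 p1
    have q0 : 0 < |(x : ℝ) + (r - w) / D| := lt_of_lt_of_le hN0 q1
    have e1 : |(((D : ℤ) * x + r : ℤ) : ℝ) + w| = D * |(x : ℝ) + (r + w) / D| := by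
      rw [← abs_of_pos hD0, ← abs_mul, abs_of_pos hD0]
      congr 1
      push_cast
      field_simp
      ring
    have e2 : |(((D : ℤ) * x + r : ℤ) : ℝ) - w| = D * |(x : ℝ) + (r - w) / D| := by
      rw [← abs_of_pos hD0, ← abs_mul, abs_of_pos hD0]
      congr 1
      push_cast
      field_simp
      ring
    rw [hper, e1, e2, RWB_mul α hD0 p0, RWB_mul β hD0 q0]
    ring
  show ‖∑ x ∈ Ioc a b, χ ((D : ℤ) * x + r) * (nit α |(((D : ℤ) * x + r : ℤ) : ℝ) + w| *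
      nit β |(((D : ℤ) * x + r : ℤ) : ℝ) - w|)‖ ≤ _
  rw [e, norm_mul, norm_mul, norm_mul, RWB_nrm, RWB_nrm, one_mul, mul_one]
  have h4 := hdy l N α β ((r + w) / D) ((r - w) / D) ρ a b hl hN hρ hρ1 h1 h2 hnd'
  calc ‖χ r‖ * ‖∑ x ∈ Ioc a b, nit α |(x : ℝ) + (r + w) / D| * nit β |(x : ℝ) + (r - w) / D|‖
      ≤ 1 * ‖∑ x ∈ Ioc a b, nit α |(x : ℝ) + (r + w) / D| * nit β |(x : ℝ) + (r - w) / D|‖ :=
        mul_le_mul_of_nonneg_right (hχ1 r) (norm_nonneg _)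
    _ ≤ _ := by rw [one_mul]; exact h4

theorem RWB_mono {w a b : ℝ} (ha : |a| < w) (hb : |b| < w) (hab : a ≤ b) :
    Real.log ((w + a) / (w - a)) ≤ Real.log ((w + b) / (w - b)) := by
  obtain ⟨a1, a2⟩ := abs_lt.1 ha
  obtain ⟨b1, b2⟩ := abs_lt.1 hb
  have h1 : 0 < w - a := by linarith
  have h2 : 0 < w - b := by linarith
  have h3 : 0 < w + a := by linarith
  refine Real.log_le_log (by positivity) ?_
  rw [div_le_div_iff₀ h1 h2]
  have h4 : 0 < w := by linarith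
  nlinarith

theorem RWB_card (J : Finset ℤ) (S : Finset ℝ) (p : ℝ → Prop) (q : ℤ → Prop) {_ : DecidablePred p}
    {_ : DecidablePred q} (hS : ∀ x, x ∈ S ↔ ∃ m ∈ J, (m : ℝ) = x) (h : ∀ m : ℤ, q m ↔ p m) :
    (J.filter q).card = (S.filter p).card := by
  refine Finset.card_bij (fun (m : ℤ) _ => (m : ℝ)) ?_ ?_ ?_
  · intro m hm
    obtain ⟨hmJ, hmb⟩ := Finset.mem_filter.1 hm
    exact Finset.mem_filter.2 ⟨(hS _).2 ⟨m, hmJ, rfl⟩, (h m).1 hmb⟩
  · intro a _ b _ hab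
    exact_mod_cast hab
  · intro x hx
    obtain ⟨hxJ, hxb⟩ := Finset.mem_filter.1 hx
    obtain ⟨m, hmJ, rfl⟩ := (hS x).1 hxJ
    exact ⟨m, Finset.mem_filter.2 ⟨hmJ, (h m).2 hxb⟩, rfl⟩

theorem RWB (hDYB : DYB_stmt) (hNDG : NDG_stmt) : RWB_stmt := by
  classical
  obtain ⟨C₀, hC₀, hdy⟩ := hDYB
  refine ⟨C₀ + 5, by omega, ?_⟩
  intro l N D α β w ρ χ J hl hN hD hρ hρ2 h1 h2 hχ hχ1 hJ hsz
  have hρ1 : ρ ≤ 1 := by linarith
  have hD0 : (0 : ℝ) < D := by exact_mod_cast hD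
  have hDZ : (0 : ℤ) < D := by exact_mod_cast hD
  have hN1 : (1 : ℝ) ≤ N := by exact_mod_cast hN
  have hN0 : (0 : ℝ) < N := by linarith
  have hl1 : (1 : ℝ) ≤ l := by exact_mod_cast hl
  set y : ℤ → ℝ := fun m => Real.log ((w + m) / (w - m)) with hy
  set c : ℕ → ℝ := fun j => Real.log (|α| / |β|) / j with hcdef
  set t : ℤ → ℂ := fun m => χ m * (nit α |(m : ℝ) + w| * nit β |(m : ℝ) - w|) with ht
  set B : ℝ := Real.exp (C₀ * (l : ℝ) ^ 3) * (N : ℝ) ^ (-(1 / (C₀ * (l : ℝ) ^ 6))) / ρ with hB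
  have hB0 : 0 ≤ B := by positivity
  have htn : ∀ m, ‖t m‖ ≤ 1 := by
    intro m
    simp only [ht]
    rw [norm_mul, norm_mul, RWB_nrm, RWB_nrm, one_mul, mul_one]
    exact hχ1 m
  have hymono : ∀ a ∈ J, ∀ b ∈ J, a ≤ b → y a ≤ y b := by
    intro a ha b hb hab
    exact RWB_mono (hsz a ha).1 (hsz b hb).1 (by exact_mod_cast hab)
  let bad : ℤ → Prop := fun m => ∃ j ∈ Icc 1 (5 * l), |y m - c j| ≤ 2 * ρ
  let sg : ℤ → ℕ := fun m => #{j ∈ Icc 1 (5 * l) | c j < y m}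
  have hsg : ∀ m, sg m < 5 * l + 1 := by
    intro m
    have h3 : sg m ≤ (Icc 1 (5 * l)).card := Finset.card_filter_le _ _
    rw [Nat.card_Icc] at h3
    omega
  -- the sum over the good elements
  set G : Finset ℤ := J.filter (fun m => ¬ bad m) with hG
  have hsplit : ∑ m ∈ J, t m = ∑ m ∈ J.filter bad, t m + ∑ m ∈ G, t m :=
    (Finset.sum_filter_add_sum_filter_not J bad t).symm
  have hbad : ‖∑ m ∈ J.filter bad, t m‖ ≤ ((J.filter bad).card : ℝ) := by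
    refine (norm_sum_le _ _).trans ?_
    refine (Finset.sum_le_sum fun m _ => htn m).trans ?_
    simp
  let K : Finset (ℕ × ℤ) := Finset.range (5 * l + 1) ×ˢ (Finset.Ico (0 : ℤ) D)
  have hmaps : ∀ m ∈ G, ((sg m, m % (D : ℤ)) : ℕ × ℤ) ∈ K := by
    intro m _
    refine Finset.mem_product.2 ⟨Finset.mem_range.2 (hsg m), Finset.mem_Ico.2 ⟨?_, ?_⟩⟩
    · exact Int.emod_nonneg _ hDZ.ne'
    · exact Int.emod_lt_of_pos _ hDZ
  have hfib : ∑ m ∈ G, t m = ∑ k ∈ K, ∑ m ∈ G.filter (fun m => ((sg m, m % (D : ℤ)) : ℕ × ℤ) = k), t m :=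
    (Finset.sum_fiberwise_of_maps_to hmaps t).symm
  have hpiece : ∀ k ∈ K, ‖∑ m ∈ G.filter (fun m => ((sg m, m % (D : ℤ)) : ℕ × ℤ) = k), t m‖ ≤ (N : ℝ) * B := by
    rintro ⟨s, r⟩ _
    refine RWB_piece hdy l N D α β w ρ χ _ r hl hN hD hρ hρ1 h1 h2 hχ hχ1 ?_ ?_ ?_
    · intro m hm
      exact (Prod.ext_iff.1 (Finset.mem_filter.1 hm).2).2
    · intro a ha b hb m ham hmb hmr
      obtain ⟨haG, hak⟩ := Finset.mem_filter.1 ha
      obtain ⟨hbG, hbk⟩ := Finset.mem_filter.1 hb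
      obtain ⟨haJ, hag⟩ := Finset.mem_filter.1 haG
      obtain ⟨hbJ, hbg⟩ := Finset.mem_filter.1 hbG
      have has : sg a = s := (Prod.ext_iff.1 hak).1
      have hbs : sg b = s := (Prod.ext_iff.1 hbk).1
      have hmJ : m ∈ J := hJ a haJ b hbJ m ham hmb
      have y1 : y a ≤ y m := hymono a haJ m hmJ ham
      have y2 : y m ≤ y b := hymono m hmJ b hbJ hmb
      have s1 : {j ∈ Icc 1 (5 * l) | c j < y a} ⊆ {j ∈ Icc 1 (5 * l) | c j < y m} := by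
        intro j hj
        obtain ⟨j1, j2⟩ := Finset.mem_filter.1 hj
        exact Finset.mem_filter.2 ⟨j1, lt_of_lt_of_le j2 y1⟩
      have s2 : {j ∈ Icc 1 (5 * l) | c j < y m} ⊆ {j ∈ Icc 1 (5 * l) | c j < y b} := by
        intro j hj
        obtain ⟨j1, j2⟩ := Finset.mem_filter.1 hj
        exact Finset.mem_filter.2 ⟨j1, lt_of_lt_of_le j2 y2⟩
      have s3 : {j ∈ Icc 1 (5 * l) | c j < y a} = {j ∈ Icc 1 (5 * l) | c j < y b} :=
        Finset.eq_of_subset_of_card_le (s1.trans s2) (by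
          show sg b ≤ sg a
          rw [has, hbs])
      have s4 : {j ∈ Icc 1 (5 * l) | c j < y m} = {j ∈ Icc 1 (5 * l) | c j < y a} :=
        Finset.Subset.antisymm (by rw [s3]; exact s2) s1
      have hms : sg m = s := by
        rw [← has]
        show #{j ∈ Icc 1 (5 * l) | c j < y m} = #{j ∈ Icc 1 (5 * l) | c j < y a}
        rw [s4]
      have hmg : ¬ bad m := by
        rintro ⟨j, hj, hjm⟩
        rcases lt_or_ge (c j) (y a) with h5 | h5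
        · apply hag
          refine ⟨j, hj, ?_⟩
          rw [abs_of_pos (by linarith)]
          rw [abs_of_pos (by linarith)] at hjm
          linarith
        · have h6 : ¬ c j < y b := by
            intro h7
            have h8 : j ∈ ({j ∈ Icc 1 (5 * l) | c j < y a} : Finset ℕ) := by
              rw [s3]
              exact Finset.mem_filter.2 ⟨hj, h7⟩
            exact absurd (Finset.mem_filter.1 h8).2 (not_lt.2 h5)
          apply hbg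
          refine ⟨j, hj, ?_⟩
          rw [abs_of_nonpos (by linarith)]
          rw [abs_of_nonpos (by linarith)] at hjm
          linarith
      refine Finset.mem_filter.2 ⟨Finset.mem_filter.2 ⟨hmJ, hmg⟩, ?_⟩
      rw [hms, hmr]
    · intro m hm
      obtain ⟨hmG, _⟩ := Finset.mem_filter.1 hm
      obtain ⟨hmJ, hmg⟩ := Finset.mem_filter.1 hmG
      obtain ⟨z1, z2, z3⟩ := hsz m hmJ
      obtain ⟨z4, z5⟩ := abs_lt.1 z1
      have z6 := le_abs_self (m : ℝ)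
      have z7 := neg_abs_le (m : ℝ)
      have a1 : |((m : ℝ) + w) / D| = (w + m) / D := by
        rw [abs_of_pos (div_pos (by linarith) hD0), add_comm]
      have a2 : |((m : ℝ) - w) / D| = (w - m) / D := by
        rw [abs_div, abs_of_neg (by linarith), abs_of_pos hD0, neg_sub]
      refine hNDG l ρ N α β _ _ hρ hρ2 hN0 ?_ ?_ ?_ ?_ ?_
      · rw [a1, le_div_iff₀ hD0]
        linarith
      · rw [a1, div_le_iff₀ hD0]
        linarith
      · rw [a2, le_div_iff₀ hD0]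
        linarith
      · rw [a2, div_le_iff₀ hD0]
        linarith
      · intro j hj
        have e1 : |((m : ℝ) + w) / D| / |((m : ℝ) - w) / D| = (w + m) / (w - m) := by
          rw [a1, a2, div_div_div_cancel_right₀ hD0.ne']
        rw [e1]
        by_contra h9
        exact hmg ⟨j, hj, not_lt.1 h9⟩
  have hgood : ‖∑ m ∈ G, t m‖ ≤ (5 * l + 1) * D * (N * B) := by
    rw [hfib]
    refine (norm_sum_le _ _).trans ?_
    refine (Finset.sum_le_sum hpiece).trans ?_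
    rw [Finset.sum_const, nsmul_eq_mul]
    have hK : (K.card : ℝ) = (5 * l + 1) * D := by
      have : K.card = (5 * l + 1) * D := by
        simp only [K, Finset.card_product, Finset.card_range, Int.card_Ico, sub_zero, Int.toNat_natCast]
      rw [this]
      push_cast
      ring
    rw [hK]
  have hfin : (5 * l + 1) * D * (N * B) ≤ (D : ℝ) * N * (Real.exp ((C₀ + 5 : ℕ) * (l : ℝ) ^ 3) *
      (N : ℝ) ^ (-(1 / ((C₀ + 5 : ℕ) * (l : ℝ) ^ 6))) / ρ) := by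
    have hC1 : (0 : ℝ) < C₀ := by exact_mod_cast hC₀
    have hl3 : (l : ℝ) ≤ (l : ℝ) ^ 3 := by
      calc (l : ℝ) = (l : ℝ) ^ 1 := (pow_one _).symm
        _ ≤ (l : ℝ) ^ 3 := pow_le_pow_right₀ hl1 (by norm_num)
    have hl6 : (0 : ℝ) < (l : ℝ) ^ 6 := by positivity
    have u1 : (5 * (l : ℝ) + 1) ≤ Real.exp (5 * (l : ℝ) ^ 3) := by
      have := Real.add_one_le_exp (5 * (l : ℝ) ^ 3)
      linarith
    have u2 : (N : ℝ) ^ (-(1 / (C₀ * (l : ℝ) ^ 6))) ≤ (N : ℝ) ^ (-(1 / ((C₀ + 5 : ℕ) * (l : ℝ) ^ 6))) := by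
      refine Real.rpow_le_rpow_of_exponent_le hN1 ?_
      rw [neg_le_neg_iff]
      refine one_div_le_one_div_of_le (by positivity) ?_
      refine mul_le_mul_of_nonneg_right ?_ hl6.le
      push_cast
      linarith
    have u3 : Real.exp ((C₀ + 5 : ℕ) * (l : ℝ) ^ 3) = Real.exp (5 * (l : ℝ) ^ 3) * Real.exp (C₀ * (l : ℝ) ^ 3) := by
      rw [← Real.exp_add]
      congr 1
      push_cast
      ring
    rw [u3]
    have u4 : (5 * (l : ℝ) + 1) * (Real.exp (C₀ * (l : ℝ) ^ 3) * (N : ℝ) ^ (-(1 / (C₀ * (l : ℝ) ^ 6)))) ≤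
        Real.exp (5 * (l : ℝ) ^ 3) * (Real.exp (C₀ * (l : ℝ) ^ 3) *
          (N : ℝ) ^ (-(1 / ((C₀ + 5 : ℕ) * (l : ℝ) ^ 6)))) :=
      mul_le_mul u1 (mul_le_mul_of_nonneg_left u2 (Real.exp_pos _).le) (by positivity) (Real.exp_pos _).le
    calc (5 * l + 1) * D * (N * B) = (D : ℝ) * N * (((5 * (l : ℝ) + 1) * (Real.exp (C₀ * (l : ℝ) ^ 3) *
          (N : ℝ) ^ (-(1 / (C₀ * (l : ℝ) ^ 6))))) / ρ) := by
          rw [hB]
          ring
      _ ≤ (D : ℝ) * N * ((Real.exp (5 * (l : ℝ) ^ 3) * (Real.exp (C₀ * (l : ℝ) ^ 3) *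
          (N : ℝ) ^ (-(1 / ((C₀ + 5 : ℕ) * (l : ℝ) ^ 6))))) / ρ) :=
          mul_le_mul_of_nonneg_left (div_le_div_of_nonneg_right u4 hρ.le) (by positivity)
      _ = _ := by ring
  show ‖∑ m ∈ J, t m‖ ≤ _
  rw [hsplit]
  refine (norm_add_le _ _).trans (add_le_add (hbad.trans (le_of_eq ?_)) (hgood.trans hfin))
  refine congrArg (Nat.cast : ℕ → ℝ) (RWB_card J _ _ bad ?_ ?_)
  · intro x
    simp only [Finset.bind_def, Finset.pure_def, Finset.mem_sup, Finset.mem_singleton]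
    exact ⟨fun ⟨m, h3, h4⟩ => ⟨m, h3, h4.symm⟩, fun ⟨m, h3, h4⟩ => ⟨m, h3, h4.symm⟩⟩
  · intro m
    exact Iff.rfl

end Pool.Agent.BP
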